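import Mathlib
import Pool.Agent.H96R3.RegMain

namespace Pool.Agent.Results.MP_a3a416_nt.GcdClasses

open Finset

/-- Let `p ≥ 5` be prime and let `E` be any finite set of positive integers. Let `N` be the number
of even `k` with `2 ≤ k ≤ p - 1` and `gcd (k-1, p-1) ∈ E`. Then the number `r` of even
`2 ≤ k ≤ p - 3` with `gcd (k-1, p-1) ∈ E` for which `p` divides the numerator of `B_k` satisfies
`r log p ≤ (N/2) log (min (p (log p)^2, (p-1)^2 / (4 N)))`. -/
theorem result (p : ℕ) (hp : p.Prime) (h5 : 5 ≤ p) (E : Finset ℕ) :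
    ((((Icc 2 (p - 3)).filter (fun k => Even k ∧ Nat.gcd (k - 1) (p - 1) ∈ E ∧
        (p : ℤ) ∣ (bernoulli k).num)).card : ℕ) : ℝ) * Real.log p ≤
      ((((Icc 2 (p - 1)).filter (fun k => Even k ∧ Nat.gcd (k - 1) (p - 1) ∈ E)).card : ℕ) : ℝ) / 2 *
        Real.log (min ((p : ℝ) * Real.log p ^ 2)
          (((p : ℝ) - 1) ^ 2 / (4 *
            ((((Icc 2 (p - 1)).filter (fun k => Even k ∧ Nat.gcd (k - 1) (p - 1) ∈ E)).card : ℕ) : ℝ)))) := by
  have : Fact p.Prime := ⟨hp⟩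
  exact Pool.Agent.H96R3.card_irregular_le h5 E

end Pool.Agent.Results.MP_a3a416_nt.GcdClasses
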